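import Pool.Agent.H23.CM.Sel

/-!
# Counting ideals of bounded norm, and the ideal below the odd primes
-/

set_option autoImplicit false

open NumberField Ideal UniqueFactorizationMonoid Filter

namespace Pool.Agent.H23.CM

lemma finite_ideals (L : Type*) [Field L] [NumberField L] (Y : ℝ) :
    {I : Ideal (𝓞 L) | (absNorm I : ℝ) ≤ Y}.Finite := by
  rcases lt_or_ge Y 0 with hY | hY
  · convert Set.finite_empty
    ext I
    simp only [Set.mem_setOf_eq, Set.mem_empty_iff_false, iff_false, not_le]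
    exact lt_of_lt_of_le hY (Nat.cast_nonneg _)
  · have h := Ideal.finite_setOf_absNorm_le (S := 𝓞 L) ⌊Y⌋₊
    refine h.subset fun I hI => ?_
    exact Nat.le_floor hI

/-- The number of the ideals of norm at most `Y` is `O(Y)`. -/
lemma ideals_le (L : Type*) [Field L] [NumberField L] :
    ∃ C : ℝ, 0 ≤ C ∧ ∀ Y : ℝ, 1 ≤ Y →
      ({I : Ideal (𝓞 L) | (absNorm I : ℝ) ≤ Y}.ncard : ℝ) ≤ C * Y := by
  have h := NumberField.Ideal.tendsto_norm_le_div_atTop L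
  have hb := h.isBoundedUnder_le
  obtain ⟨B, hB⟩ := hb
  rw [eventually_map, eventually_atTop] at hB
  obtain ⟨Y₀, hY₀⟩ := hB
  set N₀ : ℝ := ({I : Ideal (𝓞 L) | (absNorm I : ℝ) ≤ Y₀}.ncard : ℝ) with hN₀
  refine ⟨max B 0 + N₀, by positivity, fun Y hY => ?_⟩
  rcases le_or_gt Y₀ Y with h1 | h1
  · have h3 : ({I : Ideal (𝓞 L) | (absNorm I : ℝ) ≤ Y}.ncard : ℝ) ≤ B * Y :=
      (div_le_iff₀ (by linarith)).mp (hY₀ Y h1)
    refine h3.trans ?_
    have h4 : B ≤ max B 0 + N₀ := (le_max_left _ _).trans (le_add_of_nonneg_right (by positivity))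
    exact mul_le_mul_of_nonneg_right h4 (by linarith)
  · have h2 : ({I : Ideal (𝓞 L) | (absNorm I : ℝ) ≤ Y}.ncard : ℝ) ≤ N₀ := by
      rw [hN₀]
      exact_mod_cast Set.ncard_le_ncard (fun I hI => (le_trans hI h1.le : (absNorm I : ℝ) ≤ Y₀))
        (finite_ideals L Y₀)
    have h3 : 0 ≤ max B 0 := le_max_right _ _
    have h4 : 0 ≤ N₀ := by positivity
    nlinarith

variable {F : Type} [Field F] [NumberField F]

/-- The parities at the good primes are constant over the primes of `L`. -/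
def Par (L : IntermediateField ℚ F) (D : ℤ) (a : 𝓞 F) : Prop :=
  ∀ p p' : Ideal (𝓞 F), p.IsPrime → p'.IsPrime → p ≠ ⊥ → p' ≠ ⊥ →
      ((D : ℤ) : 𝓞 F) ∉ p → ((D : ℤ) : 𝓞 F) ∉ p' → p.under (𝓞 L) = p'.under (𝓞 L) →
      (Odd (vl p a) ↔ Odd (vl p' a))

lemma below_eq (L : IntermediateField ℚ F) {D : ℤ} {a a' : 𝓞 F} (ha : a ≠ 0) (ha' : a' ≠ 0)
    (hpar' : Par L D a') (h : below L D a = below L D a')
    {p : Ideal (𝓞 F)} (hp : p.IsPrime) (hp0 : p ≠ ⊥) (hD : ((D : ℤ) : 𝓞 F) ∉ p)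
    (hodd : Odd (vl p a)) : Odd (vl p a') := by
  classical
  have hmem : p ∈ oddSet D a := (mem_oddSet ha).mpr ⟨hp, hp0, hD, hodd⟩
  have hq0 : p.under (𝓞 L) ≠ ⊥ := mt Ideal.eq_bot_of_comap_eq_bot hp0
  have h1 : p.under (𝓞 L) ∣ below L D a :=
    Finset.dvd_prod_of_mem _ (Finset.mem_image_of_mem _ hmem)
  rw [h] at h1
  have hpr : Prime (p.under (𝓞 L)) := prime_of hq0
  obtain ⟨q, hq, hdvd⟩ := (hpr.dvd_finset_prod_iff _).mp h1
  obtain ⟨p', hp', rfl⟩ := Finset.mem_image.mp hq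
  rw [mem_oddSet ha'] at hp'
  obtain ⟨h3, h4, h5, h6⟩ := hp'
  have hq0' : p'.under (𝓞 L) ≠ ⊥ := mt Ideal.eq_bot_of_comap_eq_bot h4
  have hm : (p'.under (𝓞 L)).IsMaximal :=
    (inferInstance : (p'.under (𝓞 L)).IsPrime).isMaximal hq0'
  have h7 : p'.under (𝓞 L) = p.under (𝓞 L) :=
    hm.eq_of_le (inferInstance : (p.under (𝓞 L)).IsPrime).ne_top (Ideal.le_of_dvd hdvd)
  exact (hpar' p' p h3 hp h4 hp0 h5 hD h7).mp h6

end Pool.Agent.H23.CM
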