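import Mathlib

/-!
# Colmez's class functions

`K` is a CM field, Galois over `ℚ`.  The embeddings of a number field `E` are its embeddings into `K`
(if `K` contains the conjugates of `E`).
-/

set_option autoImplicit false

open NumberField

namespace Pool.Agent.H23.CM

variable {E K : Type} [Field E] [NumberField E] [Field K] [NumberField K]

/-- The complex conjugation of the CM field `K`, an element of `Gal(K/ℚ)`. -/
noncomputable def conjugation (K : Type) [Field K] [NumberField K] [IsCMField K] : K ≃ₐ[ℚ] K :=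
  (IsCMField.complexConj K).restrictScalars ℚ

/-- The action `g ψ = g ∘ ψ` of `Gal(K/ℚ)` on the embeddings of `E` into `K`. -/
def act (g : K ≃ₐ[ℚ] K) (ψ : E →ₐ[ℚ] K) : E →ₐ[ℚ] K := (g : K →ₐ[ℚ] K).comp ψ

/-- `Φ` is a CM type of `E`: `H_E` is the disjoint union of `Φ` and `c Φ`. -/
def IsCMType [IsCMField K] (Φ : Finset (E →ₐ[ℚ] K)) : Prop :=
  ∀ ψ : E →ₐ[ℚ] K, act (conjugation K) ψ ∈ Φ ↔ ψ ∉ Φ

/-- Colmez's function `a⁰_{E,ψ,Φ}(g) = #{η : η⁻¹ g η ψ ∈ Φ} / #Gal(K/ℚ)`. -/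
noncomputable def a0 (ψ : E →ₐ[ℚ] K) (Φ : Finset (E →ₐ[ℚ] K)) (g : K ≃ₐ[ℚ] K) : ℚ :=
  (Nat.card {η : K ≃ₐ[ℚ] K // act (η⁻¹ * g * η) ψ ∈ Φ} : ℚ) / Nat.card (K ≃ₐ[ℚ] K)

/-- `A_Φ`, the sum of Colmez's functions over the elements of the CM type. -/
noncomputable def heightFn (Φ : Finset (E →ₐ[ℚ] K)) (g : K ≃ₐ[ℚ] K) : ℚ := ∑ ψ ∈ Φ, a0 ψ Φ g

open scoped Classical in
/-- The sum of the `A_Φ` over all CM types `Φ` of `E`. -/
noncomputable def totalFn (E K : Type) [Field E] [NumberField E] [Field K] [NumberField K]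
    [IsCMField K] (g : K ≃ₐ[ℚ] K) : ℚ :=
  ∑ Φ ∈ Finset.univ.filter (fun Φ : Finset (E →ₐ[ℚ] K) => IsCMType Φ), heightFn Φ g

/-- **All cases of Colmez's product formula for the field `E` follow from the averaged formula.**
For all CM fields `K`, Galois over `ℚ`, and all `ℚ`-linear functions `ht` and `Z` on the rational
functions on `Gal(K/ℚ)` which agree at the constant function `1` and at the sum of the `A_Φ` over
the CM types of each number field (the averaged formula), one has `ht(a⁰_{E,ψ,Φ}) = Z(a⁰_{E,ψ,Φ})`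
for every CM type `Φ` of `E` with values in `K` and every `ψ`; moreover `A_Φ` is the same function
for all CM types `Φ` of `E` with values in `K`. -/
def ProductFormulas (E : Type) [Field E] [NumberField E] : Prop :=
  ∀ (K : Type) [Field K] [NumberField K] [IsGalois ℚ K] [IsCMField K]
    (ht Z : ((K ≃ₐ[ℚ] K) → ℚ) →ₗ[ℚ] ℝ), ht (fun _ => 1) = Z (fun _ => 1) →
    (∀ (E' : Type) [Field E'] [NumberField E'], ht (totalFn E' K) = Z (totalFn E' K)) →
    ∀ Φ : Finset (E →ₐ[ℚ] K), IsCMType Φ →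
      (∀ ψ : E →ₐ[ℚ] K, ht (a0 ψ Φ) = Z (a0 ψ Φ)) ∧
      ∀ Φ' : Finset (E →ₐ[ℚ] K), IsCMType Φ' → heightFn Φ' = heightFn Φ

end Pool.Agent.H23.CM
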