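import Pool.Agent.H23.CM.Sq
import Pool.Agent.H23.CM.Cnt

/-!
# The number of exceptional quadratic extensions
-/

set_option autoImplicit false

open NumberField Module Ideal UniqueFactorizationMonoid

namespace Pool.Agent.H23.CM

/-- A quadratic extension is generated by the square root of an algebraic integer. -/
lemma exists_gen {F E : Type} [Field F] [NumberField F] [Field E] [NumberField E] [Algebra F E]
    (h2 : finrank F E = 2) :
    ∃ (a : 𝓞 F) (b : 𝓞 E), a ≠ 0 ∧ b ^ 2 = algebraMap (𝓞 F) (𝓞 E) a ∧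
      ∀ x : F, algebraMap F E x ≠ (b : E) := by
  have hx : ∃ x : E, ∀ y : F, algebraMap F E y ≠ x := by
    by_contra h
    push Not at h
    have h3 : finrank F E = 1 := by
      rw [finrank_eq_one_iff']
      refine ⟨1, one_ne_zero, fun w => ?_⟩
      obtain ⟨y, hy⟩ := h w
      exact ⟨y, by rw [Algebra.smul_def, mul_one, hy]⟩
    omega
  obtain ⟨x, hx⟩ := hx
  obtain ⟨u, v, huv⟩ := quad_span h2 hx (x ^ 2)
  have halg : IsAlgebraic ℤ (2 * x - algebraMap F E v) :=
    (IsFractionRing.isAlgebraic_iff ℤ ℚ E).mpr (Algebra.IsAlgebraic.isAlgebraic _)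
  obtain ⟨n, hn0, hn⟩ := halg.exists_integral_multiple
  set b : 𝓞 E := ⟨n • (2 * x - algebraMap F E v), hn⟩ with hb
  have hsq : (2 * x - algebraMap F E v) ^ 2 = algebraMap F E (4 * u + v ^ 2) := by
    rw [map_add, map_mul, map_pow]
    have : (algebraMap F E) 4 = 4 := map_ofNat _ 4
    rw [this]
    linear_combination 4 * huv
  have hbE : (b : E) ^ 2 = algebraMap F E ((n : F) ^ 2 * (4 * u + v ^ 2)) := by
    show (n • (2 * x - algebraMap F E v)) ^ 2 = _
    rw [map_mul, ← hsq, map_pow, map_intCast, zsmul_eq_mul]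
    ring
  have hint : IsIntegral ℤ ((n : F) ^ 2 * (4 * u + v ^ 2)) := by
    rw [← isIntegral_algebraMap_iff (algebraMap F E).injective, ← hbE]
    exact (RingOfIntegers.isIntegral_coe b).pow 2
  set a : 𝓞 F := ⟨(n : F) ^ 2 * (4 * u + v ^ 2), hint⟩ with ha
  have haF : (a : F) = (n : F) ^ 2 * (4 * u + v ^ 2) := rfl
  have hbn : ∀ y : F, algebraMap F E y ≠ (b : E) := by
    intro y hy
    have h3 : algebraMap F E y = n • (2 * x - algebraMap F E v) := hy
    apply hx ((y / n + v) / 2)
    have hn' : (n : E) ≠ 0 := by exact_mod_cast hn0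
    rw [map_div₀, map_add, map_div₀, map_intCast, h3, zsmul_eq_mul]
    have : (algebraMap F E) 2 = 2 := map_ofNat _ 2
    rw [this, mul_div_cancel_left₀ _ hn']
    ring
  refine ⟨a, b, ?_, ?_, hbn⟩
  · intro h
    apply hbn 0
    rw [map_zero]
    have h3 : (b : E) ^ 2 = 0 := by rw [hbE, ← haF, h]; simp
    exact (pow_eq_zero_iff two_ne_zero).mp h3 |>.symm
  · apply RingOfIntegers.ext
    show (b : E) ^ 2 = algebraMap F E (a : F)
    exact hbE

/-- Quadratic extensions in which the same element has a square root are isomorphic. -/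
lemma quad_iso {F E E' : Type} [Field F] [Field E] [Field E'] [Algebra F E] [Algebra F E']
    (h2 : finrank F E = 2) (h2' : finrank F E' = 2) {a : F} {b : E} {c : E'}
    (hb : b ^ 2 = algebraMap F E a) (hb' : ∀ x : F, algebraMap F E x ≠ b)
    (hc : c ^ 2 = algebraMap F E' a) : Nonempty (E ≃ₐ[F] E') := by
  have hfd : FiniteDimensional F E := FiniteDimensional.of_finrank_pos (by omega)
  have hfd' : FiniteDimensional F E' := FiniteDimensional.of_finrank_pos (by omega)
  have hli : LinearIndependent F ![(1 : E), b] := by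
    rw [LinearIndependent.pair_iff]
    intro s t hst
    have ht : t = 0 := by
      by_contra ht
      apply hb' (-s / t)
      rw [Algebra.smul_def, Algebra.smul_def, mul_one] at hst
      have ht' : algebraMap F E t ≠ 0 := by
        rw [Ne, map_eq_zero_iff _ (algebraMap F E).injective]; exact ht
      rw [map_div₀, map_neg, div_eq_iff ht']
      linear_combination -hst
    subst ht
    rw [zero_smul, add_zero, Algebra.smul_def, mul_one] at hst
    exact ⟨(map_eq_zero_iff _ (algebraMap F E).injective).mp hst, rfl⟩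
  let B := basisOfLinearIndependentOfCardEqFinrank hli (by rw [h2]; rfl)
  let T : E →ₗ[F] E' := B.constr F ![1, c]
  have hB0 : B 0 = 1 := by simp [B]
  have hB1 : B 1 = b := by simp [B]
  have hT1 : T 1 = 1 := by
    conv_lhs => rw [← hB0]
    simp [T, B.constr_basis]
  have hTb : T b = c := by
    conv_lhs => rw [← hB1]
    simp [T, B.constr_basis]
  have hT : ∀ u v : F, T (algebraMap F E u + algebraMap F E v * b) =
      algebraMap F E' u + algebraMap F E' v * c := by
    intro u v
    rw [map_add, Algebra.algebraMap_eq_smul_one, map_smul, hT1, ← Algebra.smul_def, map_smul,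
      hTb, Algebra.algebraMap_eq_smul_one, ← Algebra.smul_def]
  let f : E →ₐ[F] E' := AlgHom.ofLinearMap T hT1 (by
    intro x y
    obtain ⟨u, v, rfl⟩ := quad_span h2 hb' x
    obtain ⟨u', v', rfl⟩ := quad_span h2 hb' y
    have h3 : (algebraMap F E u + algebraMap F E v * b) *
        (algebraMap F E u' + algebraMap F E v' * b) =
        algebraMap F E (u * u' + v * v' * a) + algebraMap F E (u * v' + u' * v) * b := by
      simp only [map_add, map_mul]
      linear_combination (algebraMap F E v * algebraMap F E v') * hb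
    rw [h3, hT, hT, hT]
    simp only [map_add, map_mul]
    linear_combination (-(algebraMap F E' v * algebraMap F E' v')) * hc)
  have hinj : Function.Injective f := f.toRingHom.injective
  have hbij : Function.Bijective f :=
    ⟨hinj, (LinearMap.injective_iff_surjective_of_finrank_eq_finrank (f := f.toLinearMap)
      (by rw [h2, h2'])).mp hinj⟩
  exact ⟨AlgEquiv.ofBijective f hbij⟩

/-- The constant: units modulo squares, ideal classes, and the prime divisors of the discriminant
of the normal closure. -/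
noncomputable def cst (F : Type) [Field F] [NumberField F] : ℕ :=
  Nat.card (USq F) * Nat.card (ClassGroup (𝓞 F)) *
    2 ^ (normalizedFactors (Ideal.span {((discr (Cl F) : ℤ) : 𝓞 F)})).toFinset.card

variable {F : Type} [Field F] [NumberField F]

/-- Elements which are exceptional for the same subfield and have a bounded ideal. -/
lemma count_one (L : IntermediateField ℚ F) : ∃ C : ℝ, 0 ≤ C ∧ ∀ Y : ℝ, 1 ≤ Y →
    ∀ {ι : Type} (a : ι → 𝓞 F), (∀ i, a i ≠ 0) →
      (∀ i j, (∃ y : F, (a i : F) * (a j : F) = y ^ 2) → i = j) → ∀ s : Finset ι,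
      (∀ i ∈ s, Par L (discr (Cl F)) (a i)) →
      (∀ i ∈ s, (absNorm (below L (discr (Cl F)) (a i)) : ℝ) ≤ Y) → (s.card : ℝ) ≤ C * Y := by
  classical
  obtain ⟨C, hC, hCY⟩ := ideals_le L
  refine ⟨cst F * C, by positivity, fun Y hY ι a ha hinj s hpar hle => ?_⟩
  set D := discr (Cl F) with hD
  have hfin := finite_ideals L Y
  have h1 : s.card ≤ cst F * (s.image fun i => below L D (a i)).card := by
    refine Finset.card_le_mul_card_image _ _ fun I hI => ?_
    refine card_parity a ha hinj D (discr_ne_zero _) _ ?_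
    intro i hi j hj p hp hp0 hDp
    rw [Finset.mem_filter] at hi hj
    have h2 : below L D (a i) = below L D (a j) := hi.2.trans hj.2.symm
    exact ⟨below_eq L (ha i) (ha j) (hpar j hj.1) h2 hp hp0 hDp,
      below_eq L (ha j) (ha i) (hpar i hi.1) h2.symm hp hp0 hDp⟩
  have h2 : (s.image fun i => below L D (a i)).card ≤
      {I : Ideal (𝓞 L) | (absNorm I : ℝ) ≤ Y}.ncard := by
    rw [← Set.ncard_coe_finset]
    refine Set.ncard_le_ncard ?_ hfin
    intro I hI
    obtain ⟨i, hi, rfl⟩ := Finset.mem_image.mp (Finset.mem_coe.mp hI)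
    exact hle i hi
  calc (s.card : ℝ) ≤ (cst F : ℝ) * ((s.image fun i => below L D (a i)).card : ℝ) := by
        exact_mod_cast h1
    _ ≤ (cst F : ℝ) * (C * Y) := by
        refine mul_le_mul_of_nonneg_left ?_ (by positivity)
        exact le_trans (by exact_mod_cast h2) (hCY Y hY)
    _ = cst F * C * Y := by ring

/-- The norm of the ideal below is bounded by a root of the discriminant. -/
lemma exceptional_data [IsTotallyReal F] {E : Type} [Field E] [NumberField E] [Algebra F E]
    (h2 : finrank F E = 2) (hE : ¬ ProductFormulas E) {a : 𝓞 F} {b : 𝓞 E} (ha : a ≠ 0)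
    (hb : b ^ 2 = algebraMap (𝓞 F) (𝓞 E) a) (hb' : ∀ x : F, algebraMap F E x ≠ (b : E)) :
    ∃ L : IntermediateField ℚ F, L ≠ ⊤ ∧ Par L (discr (Cl F)) a ∧
      absNorm (below L (discr (Cl F)) a) ^ finrank L F ≤ (discr E).natAbs := by
  have hbE : (b : E) ^ 2 = algebraMap F E (a : F) := by
    have := congrArg (fun z : 𝓞 E => (z : E)) hb
    exact this
  obtain ⟨L, hL, M, i1, i2, i3, hGal, hdisc, hsq⟩ := exists_closure h2 hE hbE hb'
  have hpar : Par L (discr (Cl F)) a := by
    intro p p' hp hp' h0 h0' hD hD' hq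
    rw [← hdisc] at hD hD'
    exact parity L ha hsq h0 h0' hq (fun Q hQ hQp => (unr h0 hD Q hQ hQp).2)
      (fun Q hQ hQp => (unr h0' hD' Q hQ hQp).2)
  refine ⟨L, hL, hpar, below_le L ha hb hpar ?_⟩
  intro p hp h0 hD
  rw [← hdisc] at hD
  exact unr_sub L h0 hD

/-- **The exceptional quadratic extensions are rare.** -/
theorem exceptional_le (F : Type) [Field F] [NumberField F] [IsTotallyReal F] (m : ℕ) (hm : 0 < m)
    (hF : ∀ L : IntermediateField ℚ F, L ≠ ⊤ → m ≤ finrank L F) :
    ∃ C : ℝ, ∀ X : ℝ, 1 ≤ X → ∀ (ι : Type) (E : ι → Type) [∀ i, Field (E i)]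
      [∀ i, NumberField (E i)] [∀ i, Algebra F (E i)],
      (∀ i, finrank F (E i) = 2) → (∀ i j, Nonempty (E i ≃ₐ[F] E j) → i = j) →
      (∀ i, |(discr (E i) : ℝ)| ≤ X) → (∀ i, ¬ ProductFormulas (E i)) →
      Finite ι ∧ (Nat.card ι : ℝ) ≤ C * X ^ ((1 : ℝ) / m) := by
  classical
  have hfinL : Finite (IntermediateField ℚ F) :=
    Field.finite_intermediateField_of_exists_primitive_element ℚ F
      (Field.exists_primitive_element ℚ F)
  have := Fintype.ofFinite (IntermediateField ℚ F)
  choose C hC hcount using fun L : IntermediateField ℚ F => count_one (F := F) L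
  refine ⟨∑ L, C L, fun X hX ι E _ _ _ h2 hiso hdisc hexc => ?_⟩
  set Y : ℝ := X ^ ((1 : ℝ) / m) with hY
  have hX0 : 0 ≤ X := by linarith
  have hY1 : 1 ≤ Y := Real.one_le_rpow hX (by positivity)
  choose a b ha hb hb' using fun i => exists_gen (h2 i)
  choose L hL hpar hnorm using fun i => exceptional_data (h2 i) (hexc i) (ha i) (hb i) (hb' i)
  have hbE : ∀ i, (b i : E i) ^ 2 = algebraMap F (E i) (a i : F) := fun i =>
    congrArg (fun z : 𝓞 (E i) => (z : E i)) (hb i)
  have hinj : ∀ i j, (∃ y : F, (a i : F) * (a j : F) = y ^ 2) → i = j := by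
    rintro i j ⟨y, hy⟩
    apply hiso
    have hj0 : (a j : F) ≠ 0 := fun h0 => ha j (by exact_mod_cast h0)
    refine quad_iso (h2 i) (h2 j) (hbE i) (hb' i) (c := algebraMap F (E j) (y / a j) * b j) ?_
    rw [mul_pow, hbE j, ← map_pow, ← map_mul]
    congr 1
    rw [div_pow, ← hy]
    field_simp
  have hYn : ∀ i, (absNorm (below (L i) (discr (Cl F)) (a i)) : ℝ) ≤ Y := by
    intro i
    set N := absNorm (below (L i) (discr (Cl F)) (a i)) with hN
    have h3 : (N : ℝ) ^ m ≤ X := by
      rcases Nat.eq_zero_or_pos N with h0 | h0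
      · rw [h0, Nat.cast_zero, zero_pow hm.ne']; exact hX0
      · have h4 : N ^ m ≤ N ^ finrank (L i) F := Nat.pow_le_pow_right h0 (hF _ (hL i))
        have h5 : ((discr (E i)).natAbs : ℝ) ≤ X := by
          have h6 := hdisc i
          rw [← Int.cast_abs, Int.abs_eq_natAbs, Int.cast_natCast] at h6
          exact h6
        calc (N : ℝ) ^ m ≤ (N : ℝ) ^ finrank (L i) F := by exact_mod_cast h4
          _ ≤ ((discr (E i)).natAbs : ℝ) := by exact_mod_cast hnorm i
          _ ≤ X := h5
    calc (N : ℝ) = ((N : ℝ) ^ m) ^ ((1 : ℝ) / m) := by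
          rw [one_div, Real.pow_rpow_inv_natCast (by positivity) hm.ne']
      _ ≤ Y := Real.rpow_le_rpow (by positivity) h3 (by positivity)
  have hfinset : ∀ s : Finset ι, (s.card : ℝ) ≤ (∑ L, C L) * Y := by
    intro s
    have h4 : s.card = ∑ K : IntermediateField ℚ F, (s.filter fun i => L i = K).card :=
      Finset.card_eq_sum_card_fiberwise (fun i _ => Finset.mem_univ (L i))
    rw [h4, Nat.cast_sum, Finset.sum_mul]
    refine Finset.sum_le_sum fun K _ => ?_
    refine hcount K Y hY1 a ha hinj _ ?_ ?_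
    · intro i hi
      have h5 := (Finset.mem_filter.mp hi).2
      rw [← h5]; exact hpar i
    · intro i hi
      have h5 := (Finset.mem_filter.mp hi).2
      rw [← h5]; exact hYn i
  have hfin : Finite ι := by
    by_contra h
    rw [not_finite_iff_infinite] at h
    obtain ⟨s, hs⟩ := Infinite.exists_subset_card_eq ι (⌊(∑ L, C L) * Y⌋₊ + 1)
    have h5 := hfinset s
    rw [hs] at h5
    push_cast at h5
    have h6 := Nat.lt_floor_add_one ((∑ L, C L) * Y)
    linarith
  refine ⟨hfin, ?_⟩
  have := Fintype.ofFinite ι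
  rw [Nat.card_eq_fintype_card, ← Finset.card_univ]
  exact hfinset Finset.univ

end Pool.Agent.H23.CM
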