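import Pool.Agent.H23.CM.Unr

/-!
# The ideal of the subfield below the ramified primes, and its norm
-/

set_option autoImplicit false

open NumberField Ideal UniqueFactorizationMonoid

namespace Pool.Agent.H23.CM

variable {F : Type} [Field F] [NumberField F]

open scoped Classical in
/-- The prime ideals which do not contain `D` and at which `a` has odd valuation. -/
noncomputable def oddSet (D : ℤ) (a : 𝓞 F) : Finset (Ideal (𝓞 F)) :=
  (normalizedFactors (Ideal.span {a})).toFinset.filter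
    (fun p => ((D : ℤ) : 𝓞 F) ∉ p ∧ Odd (vl p a))

lemma mem_oddSet {D : ℤ} {a : 𝓞 F} (ha : a ≠ 0) {p : Ideal (𝓞 F)} :
    p ∈ oddSet D a ↔ p.IsPrime ∧ p ≠ ⊥ ∧ ((D : ℤ) : 𝓞 F) ∉ p ∧ Odd (vl p a) := by
  classical
  unfold oddSet
  rw [Finset.mem_filter, Multiset.mem_toFinset]
  constructor
  · rintro ⟨h1, h2, h3⟩
    have hp : Prime p := prime_of_normalized_factor p h1
    exact ⟨Ideal.isPrime_of_prime hp, hp.ne_zero, h2, h3⟩
  · rintro ⟨h1, h2, h3, h4⟩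
    refine ⟨?_, h3, h4⟩
    have hp : Prime p := prime_of h2
    have hdvd : p ∣ Ideal.span {a} := by
      by_contra h
      have h5 : vl p a = 0 := multiplicity_eq_zero.mpr h
      rw [h5] at h4
      exact absurd h4 (by decide)
    obtain ⟨q, hq, hpq⟩ := exists_mem_normalizedFactors_of_dvd (span_ne ha) hp.irreducible hdvd
    rwa [associated_iff_eq.mp hpq]

open scoped Classical in
/-- The product of the primes of the subfield below the primes of `oddSet`. -/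
noncomputable def below (L : IntermediateField ℚ F) (D : ℤ) (a : 𝓞 F) : Ideal (𝓞 L) :=
  ∏ q ∈ (oddSet D a).image (fun p => p.under (𝓞 L)), q

open scoped Classical in
lemma map_below_dvd (L : IntermediateField ℚ F) {D : ℤ} {a : 𝓞 F} (ha : a ≠ 0)
    (hpar : ∀ p p' : Ideal (𝓞 F), p.IsPrime → p'.IsPrime → p ≠ ⊥ → p' ≠ ⊥ →
      ((D : ℤ) : 𝓞 F) ∉ p → ((D : ℤ) : 𝓞 F) ∉ p' → p.under (𝓞 L) = p'.under (𝓞 L) →
      (Odd (vl p a) ↔ Odd (vl p' a)))
    (hram : ∀ p : Ideal (𝓞 F), p.IsPrime → p ≠ ⊥ → ((D : ℤ) : 𝓞 F) ∉ p →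
      ramificationIdx' (p.under (𝓞 L)) p = 1) :
    (below L D a).map (algebraMap (𝓞 L) (𝓞 F)) ∣ ∏ p ∈ oddSet D a, p := by
  unfold below
  rw [← Ideal.mapHom_apply, map_prod]
  rw [← Finset.prod_fiberwise_of_maps_to (s := oddSet D a)
    (t := (oddSet D a).image (fun p => p.under (𝓞 L))) (g := fun p => p.under (𝓞 L))
    (fun p hp => Finset.mem_image_of_mem _ hp)]
  refine Finset.prod_dvd_prod_of_dvd _ _ fun q hq => ?_
  rw [Ideal.mapHom_apply]
  obtain ⟨p₀, hp₀, rfl⟩ := Finset.mem_image.mp hq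
  rw [mem_oddSet ha] at hp₀
  obtain ⟨hp1, hp2, hp3, hp4⟩ := hp₀
  have hq0 : p₀.under (𝓞 L) ≠ ⊥ := mt Ideal.eq_bot_of_comap_eq_bot hp2
  have hqm : (p₀.under (𝓞 L)).IsMaximal :=
    (inferInstance : (p₀.under (𝓞 L)).IsPrime).isMaximal hq0
  have hm0 : (p₀.under (𝓞 L)).map (algebraMap (𝓞 L) (𝓞 F)) ≠ ⊥ := map_ne_bot_of_ne_bot hq0
  have hDq : ∀ p : Ideal (𝓞 F), p.under (𝓞 L) = p₀.under (𝓞 L) → ((D : ℤ) : 𝓞 F) ∉ p := by
    intro p hp h
    apply hp3
    have h1 : ((D : ℤ) : 𝓞 L) ∈ p.under (𝓞 L) := by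
      rw [Ideal.mem_under, map_intCast]; exact h
    rw [hp, Ideal.mem_under, map_intCast] at h1
    exact h1
  have hfac : ∀ p ∈ normalizedFactors ((p₀.under (𝓞 L)).map (algebraMap (𝓞 L) (𝓞 F))),
      p.IsPrime ∧ p ≠ ⊥ ∧ p.under (𝓞 L) = p₀.under (𝓞 L) := by
    intro p hp
    have hpp : Prime p := prime_of_normalized_factor p hp
    have h1 : (p₀.under (𝓞 L)).map (algebraMap (𝓞 L) (𝓞 F)) ≤ p :=
      Ideal.le_of_dvd (dvd_of_mem_normalizedFactors hp)
    have hpi := Ideal.isPrime_of_prime hpp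
    refine ⟨hpi, hpp.ne_zero, ?_⟩
    rw [Ideal.map_le_iff_le_comap] at h1
    exact (hqm.eq_of_le (Ideal.IsPrime.under (𝓞 L) p).ne_top h1).symm
  have hnd : (normalizedFactors ((p₀.under (𝓞 L)).map (algebraMap (𝓞 L) (𝓞 F)))).Nodup := by
    rw [Multiset.nodup_iff_count_le_one]
    intro p
    by_cases hp : p ∈ normalizedFactors ((p₀.under (𝓞 L)).map (algebraMap (𝓞 L) (𝓞 F)))
    · obtain ⟨h1, h2, h3⟩ := hfac p hp
      rw [← Ideal.IsDedekindDomain.ramificationIdx'_eq_normalizedFactors_count hm0 h1 h2]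
      rw [← h3, hram p h1 h2 (hDq p h3)]
    · rw [Multiset.count_eq_zero_of_notMem hp]
      exact Nat.zero_le _
  have hprod : (p₀.under (𝓞 L)).map (algebraMap (𝓞 L) (𝓞 F)) =
      ∏ p ∈ (normalizedFactors
        ((p₀.under (𝓞 L)).map (algebraMap (𝓞 L) (𝓞 F)))).toFinset, p := by
    conv_lhs => rw [← Ideal.prod_normalizedFactors_eq_self hm0]
    rw [Finset.prod_eq_multiset_prod, Multiset.toFinset_val, Multiset.dedup_eq_self.mpr hnd,
      Multiset.map_id']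
  rw [hprod]
  refine Finset.prod_dvd_prod_of_subset _ _ _ fun p hp => ?_
  rw [Multiset.mem_toFinset] at hp
  obtain ⟨h1, h2, h3⟩ := hfac p hp
  rw [Finset.mem_filter, mem_oddSet ha]
  exact ⟨⟨h1, h2, hDq p h3, (hpar p₀ p hp1 h1 hp2 h2 hp3 (hDq p h3) h3.symm).mp hp4⟩, h3⟩

variable {E : Type} [Field E] [NumberField E] [Algebra F E]

open scoped Classical in
/-- The norm of the product of the primes with odd valuation is at most the discriminant. -/
lemma prod_odd_le {D : ℤ} {a : 𝓞 F} (ha : a ≠ 0) {b : 𝓞 E}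
    (hb : b ^ 2 = algebraMap (𝓞 F) (𝓞 E) a) :
    ∏ p ∈ oddSet D a, absNorm p ≤ (discr E).natAbs := by
  have hex : ∀ p : Ideal (𝓞 F), ∃ P : Ideal (𝓞 E), p ∈ oddSet D a → P.IsPrime ∧ P.LiesOver p := by
    intro p
    by_cases hp : p ∈ oddSet D a
    · rw [mem_oddSet ha] at hp
      have := hp.1
      obtain ⟨⟨P, hP, hPp⟩⟩ := (inferInstance : Nonempty (p.primesOver (𝓞 E)))
      exact ⟨P, fun _ => ⟨hP, hPp⟩⟩
    · exact ⟨⊥, fun h => absurd h hp⟩
  choose f hf using hex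
  have hdvd : ∀ p ∈ oddSet D a, f p ∣ differentIdeal (𝓞 F) (𝓞 E) := by
    intro p hp
    obtain ⟨h1, h2⟩ := hf p hp
    rw [mem_oddSet ha] at hp
    obtain ⟨h3, h4, h5, h6⟩ := hp
    exact dvd_different ha hb h4 h6
  have hne : ∀ p ∈ oddSet D a, f p ≠ ⊥ := by
    intro p hp
    obtain ⟨h1, h2⟩ := hf p hp
    rw [mem_oddSet ha] at hp
    exact Ideal.ne_bot_of_liesOver_of_ne_bot hp.2.1 (f p)
  have hinj : Set.InjOn f (oddSet D a : Set (Ideal (𝓞 F))) := by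
    intro p hp p' hp' h
    obtain ⟨-, h2⟩ := hf p hp
    obtain ⟨-, h2'⟩ := hf p' hp'
    rw [h2.over, h2'.over, h]
  have h1 : ∏ P ∈ (oddSet D a).image f, P ∣ differentIdeal (𝓞 F) (𝓞 E) := by
    refine Finset.prod_primes_dvd _ ?_ ?_
    · intro P hP
      obtain ⟨p, hp, rfl⟩ := Finset.mem_image.mp hP
      have := (hf p hp).1
      exact prime_of (hne p hp)
    · intro P hP
      obtain ⟨p, hp, rfl⟩ := Finset.mem_image.mp hP
      exact hdvd p hp
  rw [Finset.prod_image hinj] at h1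
  have h2 : ∏ p ∈ oddSet D a, absNorm (f p) ∣ absNorm (differentIdeal (𝓞 F) (𝓞 E)) := by
    rw [← map_prod]
    exact map_dvd absNorm h1
  have hdiff : absNorm (differentIdeal (𝓞 F) (𝓞 E)) ≠ 0 := by
    rw [Ne, absNorm_eq_zero_iff]
    exact differentIdeal_ne_bot
  have hdF : (discr F).natAbs ≠ 0 := Int.natAbs_ne_zero.mpr (discr_ne_zero F)
  calc ∏ p ∈ oddSet D a, absNorm p ≤ ∏ p ∈ oddSet D a, absNorm (f p) := by
        refine Finset.prod_le_prod' fun p hp => ?_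
        obtain ⟨h3, h4⟩ := hf p hp
        rw [mem_oddSet ha] at hp
        exact absNorm_le hp.2.1 (Ideal.ne_bot_of_liesOver_of_ne_bot hp.2.1 (f p))
    _ ≤ absNorm (differentIdeal (𝓞 F) (𝓞 E)) := Nat.le_of_dvd (Nat.pos_of_ne_zero hdiff) h2
    _ ≤ absNorm (differentIdeal (𝓞 F) (𝓞 E)) * (discr F).natAbs ^ Module.finrank F E :=
        Nat.le_mul_of_pos_right _ (Nat.pos_of_ne_zero (pow_ne_zero _ hdF))
    _ = (discr E).natAbs :=
        (natAbs_discr_eq_absNorm_differentIdeal_mul_natAbs_discr_pow F (𝓞 F) E (𝓞 E)).symm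

/-- **The norm of the ideal of the subfield.** -/
lemma below_le (L : IntermediateField ℚ F) {D : ℤ} {a : 𝓞 F} (ha : a ≠ 0) {b : 𝓞 E}
    (hb : b ^ 2 = algebraMap (𝓞 F) (𝓞 E) a)
    (hpar : ∀ p p' : Ideal (𝓞 F), p.IsPrime → p'.IsPrime → p ≠ ⊥ → p' ≠ ⊥ →
      ((D : ℤ) : 𝓞 F) ∉ p → ((D : ℤ) : 𝓞 F) ∉ p' → p.under (𝓞 L) = p'.under (𝓞 L) →
      (Odd (vl p a) ↔ Odd (vl p' a)))
    (hram : ∀ p : Ideal (𝓞 F), p.IsPrime → p ≠ ⊥ → ((D : ℤ) : 𝓞 F) ∉ p →
      ramificationIdx' (p.under (𝓞 L)) p = 1) :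
    absNorm (below L D a) ^ Module.finrank L F ≤ (discr E).natAbs := by
  classical
  have h1 := map_below_dvd L ha hpar hram
  have h2 : absNorm ((below L D a).map (algebraMap (𝓞 L) (𝓞 F))) =
      absNorm (below L D a) ^ Module.finrank L F := by
    rw [Ideal.absNorm_algebraMap, ← IsFractionRing.finrank_eq (𝓞 L) L (𝓞 F) F]
  rw [← h2]
  refine le_trans (Nat.le_of_dvd ?_ (map_dvd absNorm h1)) ?_
  · rw [map_prod]
    refine Finset.prod_pos fun p hp => Nat.pos_of_ne_zero ?_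
    rw [Ne, absNorm_eq_zero_iff]
    rw [mem_oddSet ha] at hp
    exact hp.2.1
  · rw [map_prod]
    exact prod_odd_le ha hb

end Pool.Agent.H23.CM
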