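import Pool.Agent.H23.CM.Norm

/-!
# Few square classes with the same odd primes
-/

set_option autoImplicit false

open NumberField Ideal UniqueFactorizationMonoid nonZeroDivisors

namespace Pool.Agent.H23.CM

variable {F : Type} [Field F] [NumberField F]

lemma vl_count {p : Ideal (𝓞 F)} [hp : p.IsPrime] (h0 : p ≠ ⊥) {x : 𝓞 F} (hx : x ≠ 0) :
    (by classical exact (normalizedFactors (Ideal.span {x})).count p) = vl p x := by
  classical
  have h1 := emult_eq h0 hx
  rw [emultiplicity_eq_count_normalizedFactors (prime_of h0).irreducible (span_ne hx),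
    normalize_eq] at h1
  exact_mod_cast h1

/-- An element with even valuations generates the square of an ideal. -/
lemma exists_sq {x : 𝓞 F} (hx : x ≠ 0)
    (h : ∀ p : Ideal (𝓞 F), p.IsPrime → p ≠ ⊥ → Even (vl p x)) :
    ∃ I : Ideal (𝓞 F), Ideal.span {x} = I ^ 2 := by
  classical
  obtain ⟨u, hu⟩ := Multiset.exists_smul_of_dvd_count (normalizedFactors (Ideal.span {x}))
    (k := 2) (by
      intro p hp
      have hpp : Prime p := prime_of_normalized_factor p hp
      have := Ideal.isPrime_of_prime hpp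
      have h1 := vl_count (F := F) (p := p) hpp.ne_zero hx
      rw [h1]
      exact (h p this hpp.ne_zero).two_dvd)
  refine ⟨u.prod, ?_⟩
  rw [← Ideal.prod_normalizedFactors_eq_self (span_ne hx), hu, Multiset.prod_nsmul]

/-- The group of units modulo squares. -/
abbrev USq (F : Type) [Field F] [NumberField F] : Type :=
  (𝓞 F)ˣ ⧸ (powMonoidHom 2 : (𝓞 F)ˣ →* (𝓞 F)ˣ).range

instance : Finite (USq F) := by
  have h1 : Group.FG (𝓞 F)ˣ := Group.fg_iff_monoid_fg.mpr inferInstance
  have h2 : Group.FG (USq F) := QuotientGroup.fg _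
  refine CommGroup.finite_of_fg_isMulTorsion _ ?_
  intro x
  rw [isOfFinOrder_iff_pow_eq_one]
  refine ⟨2, by norm_num, ?_⟩
  induction x using QuotientGroup.induction_on with
  | H u =>
    rw [← QuotientGroup.mk_pow, QuotientGroup.eq_one_iff]
    exact ⟨u, rfl⟩

section

variable {ι : Type} (a : ι → 𝓞 F) (ha : ∀ i, a i ≠ 0)
  (hinj : ∀ i j, (∃ y : F, ((a i : F) * (a j : F)) = y ^ 2) → i = j)

include ha hinj

/-- Units. -/
lemma card_units (s : Finset ι)
    (h : ∀ i ∈ s, ∀ j ∈ s, ∃ (u : (𝓞 F)ˣ) (y : F), (a i : F) * (a j : F) = ((u : 𝓞 F) : F) * y ^ 2) :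
    s.card ≤ Nat.card (USq F) := by
  classical
  rcases s.eq_empty_or_nonempty with rfl | ⟨j, hj⟩
  · simp
  have h' : ∀ i, ∃ (u : (𝓞 F)ˣ) (y : F), i ∈ s →
      (a i : F) * (a j : F) = ((u : 𝓞 F) : F) * y ^ 2 := by
    intro i
    by_cases hi : i ∈ s
    · obtain ⟨u, y, hy⟩ := h i hi j hj
      exact ⟨u, y, fun _ => hy⟩
    · exact ⟨1, 0, fun h => absurd h hi⟩
  choose u y hy using h'
  have haF : ∀ i, (a i : F) ≠ 0 := fun i h0 => ha i (by exact_mod_cast h0)
  have hinj2 : Set.InjOn (fun i => (QuotientGroup.mk (u i) : USq F)) (s : Set ι) := by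
    intro i hi k hk hik
    have hi' : i ∈ s := hi
    have hk' : k ∈ s := hk
    have h1 : (u i)⁻¹ * u k ∈ (powMonoidHom 2 : (𝓞 F)ˣ →* (𝓞 F)ˣ).range :=
      QuotientGroup.eq.mp hik
    obtain ⟨w, hw⟩ := h1
    have h2 : u k = u i * w ^ 2 := by
      have : w ^ 2 = (u i)⁻¹ * u k := hw
      rw [this]; group
    apply hinj
    have h3 : (((u k : (𝓞 F)ˣ) : 𝓞 F) : F) = ((u i : 𝓞 F) : F) * ((w : 𝓞 F) : F) ^ 2 := by
      rw [h2]; push_cast; rfl
    refine ⟨((u i : 𝓞 F) : F) * ((w : 𝓞 F) : F) * y i * y k / (a j : F), ?_⟩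
    have e1 := hy i hi'
    have e2 := hy k hk'
    rw [h3] at e2
    rw [div_pow, eq_div_iff (pow_ne_zero 2 (haF j))]
    linear_combination ((a k : F) * (a j : F)) * e1 + (((u i : 𝓞 F) : F) * y i ^ 2) * e2
  calc s.card = (s.image (fun i => (QuotientGroup.mk (u i) : USq F))).card :=
        (Finset.card_image_of_injOn hinj2).symm
    _ = Nat.card (s.image (fun i => (QuotientGroup.mk (u i) : USq F))) := by
        rw [Nat.card_eq_fintype_card, Fintype.card_coe]
    _ ≤ Nat.card (USq F) := Nat.card_le_card_of_injective _ Subtype.val_injective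

/-- Ideal classes. -/
lemma card_classes (s : Finset ι)
    (h : ∀ i ∈ s, ∀ j ∈ s, ∃ I : Ideal (𝓞 F), Ideal.span {a i * a j} = I ^ 2) :
    s.card ≤ Nat.card (USq F) * Nat.card (ClassGroup (𝓞 F)) := by
  classical
  rcases s.eq_empty_or_nonempty with rfl | ⟨j, hj⟩
  · simp
  have h' : ∀ i, ∃ I : (Ideal (𝓞 F))⁰, i ∈ s → Ideal.span {a i * a j} = (I : Ideal (𝓞 F)) ^ 2 := by
    intro i
    by_cases hi : i ∈ s
    · obtain ⟨I, hI⟩ := h i hi j hj
      have hI0 : I ≠ 0 := by
        rintro rfl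
        have h2 : Ideal.span {a i * a j} ≠ ⊥ := span_ne (mul_ne_zero (ha i) (ha j))
        rw [hI] at h2
        exact h2 (by simp)
      exact ⟨⟨I, mem_nonZeroDivisors_of_ne_zero hI0⟩, fun _ => hI⟩
    · exact ⟨1, fun h => absurd h hi⟩
  choose I hI using h'
  have : Fintype (ClassGroup (𝓞 F)) := Fintype.ofFinite _
  have hle := Finset.card_le_mul_card_image (f := fun i => ClassGroup.mk0 (I i)) s
    (Nat.card (USq F)) (by
      intro c _
      refine card_units a ha hinj _ ?_
      intro i hi k hk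
      rw [Finset.mem_filter] at hi hk
      obtain ⟨hi, hic⟩ := hi
      obtain ⟨hk, hkc⟩ := hk
      obtain ⟨x, y, hx, hy, hxy⟩ := ClassGroup.mk0_eq_mk0_iff.mp (hic.trans hkc.symm)
      have h1 : Ideal.span {x ^ 2 * (a i * a j)} = Ideal.span {y ^ 2 * (a k * a j)} := by
        rw [← Ideal.span_singleton_mul_span_singleton (x ^ 2) (a i * a j),
          ← Ideal.span_singleton_mul_span_singleton (y ^ 2) (a k * a j), hI i hi, hI k hk, ← Ideal.span_singleton_pow, ← Ideal.span_singleton_pow, ← mul_pow,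
          ← mul_pow, hxy]
      rw [Ideal.span_singleton_eq_span_singleton] at h1
      obtain ⟨v, hv⟩ := h1
      have hxF : (x : F) ≠ 0 := fun h0 => hx (by exact_mod_cast h0)
      have hjF : (a j : F) ≠ 0 := fun h0 => ha j (by exact_mod_cast h0)
      have e1 : (x : F) ^ 2 * ((a i : F) * (a j : F)) * ((v : 𝓞 F) : F) =
          (y : F) ^ 2 * ((a k : F) * (a j : F)) := by
        exact_mod_cast congrArg (fun z : 𝓞 F => (z : F)) hv
      have e2 : (x : F) ^ 2 * (a i : F) * ((v : 𝓞 F) : F) = (y : F) ^ 2 * (a k : F) := by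
        apply mul_right_cancel₀ hjF
        linear_combination e1
      have hvv : ((v : 𝓞 F) : F) * (((v⁻¹ : (𝓞 F)ˣ) : 𝓞 F) : F) = 1 := by
        have : ((v : 𝓞 F)) * ((v⁻¹ : (𝓞 F)ˣ) : 𝓞 F) = 1 := Units.mul_inv v
        exact_mod_cast congrArg (fun z : 𝓞 F => (z : F)) this
      refine ⟨v⁻¹, (y : F) * (a k : F) / (x : F), ?_⟩
      rw [div_pow, mul_pow, ← mul_div_assoc, eq_div_iff (pow_ne_zero 2 hxF)]
      linear_combination ((((v⁻¹ : (𝓞 F)ˣ) : 𝓞 F) : F) * (a k : F)) * e2 -
        ((a i : F) * (a k : F) * (x : F) ^ 2) * hvv)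
  refine hle.trans (Nat.mul_le_mul_left _ ?_)
  rw [Nat.card_eq_fintype_card]
  exact Finset.card_le_univ _

open scoped Classical in
/-- **Few elements with the same odd primes, up to squares.** -/
lemma card_parity (D : ℤ) (hD : D ≠ 0) (s : Finset ι)
    (h : ∀ i ∈ s, ∀ j ∈ s, ∀ p : Ideal (𝓞 F), p.IsPrime → p ≠ ⊥ → ((D : ℤ) : 𝓞 F) ∉ p →
      (Odd (vl p (a i)) ↔ Odd (vl p (a j)))) :
    s.card ≤ Nat.card (USq F) * Nat.card (ClassGroup (𝓞 F)) *
      2 ^ (normalizedFactors (Ideal.span {((D : ℤ) : 𝓞 F)})).toFinset.card := by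
  have hD0 : ((D : ℤ) : 𝓞 F) ≠ 0 := by exact_mod_cast hD
  set S := (normalizedFactors (Ideal.span {((D : ℤ) : 𝓞 F)})).toFinset with hS
  have hmem : ∀ p : Ideal (𝓞 F), p.IsPrime → p ≠ ⊥ → ((D : ℤ) : 𝓞 F) ∈ p → p ∈ S := by
    intro p hp hp0 hDp
    rw [hS, Multiset.mem_toFinset]
    have hdvd : p ∣ Ideal.span {((D : ℤ) : 𝓞 F)} := by
      rw [Ideal.dvd_iff_le, Ideal.span_singleton_le_iff_mem]; exact hDp
    obtain ⟨q, hq, hpq⟩ := exists_mem_normalizedFactors_of_dvd (span_ne hD0)
      (prime_of hp0).irreducible hdvd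
    rwa [associated_iff_eq.mp hpq]
  have hle := Finset.card_le_mul_card_image_of_maps_to
    (f := fun i => S.filter (fun p => Odd (vl p (a i)))) (s := s) (t := S.powerset)
    (fun i _ => Finset.mem_powerset.mpr (Finset.filter_subset _ _))
    (Nat.card (USq F) * Nat.card (ClassGroup (𝓞 F))) (by
      intro T _
      refine card_classes a ha hinj _ ?_
      intro i hi k hk
      rw [Finset.mem_filter] at hi hk
      obtain ⟨hi, hiT⟩ := hi
      obtain ⟨hk, hkT⟩ := hk
      refine exists_sq (mul_ne_zero (ha i) (ha k)) ?_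
      intro p hp hp0
      rw [vl_mul hp0 (ha i) (ha k), Nat.even_add]
      have key : Odd (vl p (a i)) ↔ Odd (vl p (a k)) := by
        by_cases hDp : ((D : ℤ) : 𝓞 F) ∈ p
        · have hpS := hmem p hp hp0 hDp
          have h1 : p ∈ S.filter (fun p => Odd (vl p (a i))) ↔
              p ∈ S.filter (fun p => Odd (vl p (a k))) := by
            rw [show S.filter (fun p => Odd (vl p (a i))) = T from hiT,
              show S.filter (fun p => Odd (vl p (a k))) = T from hkT]
          rw [Finset.mem_filter, Finset.mem_filter] at h1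
          tauto
        · exact h i hi k hk p hp hp0 hDp
      rw [← Nat.not_odd_iff_even, ← Nat.not_odd_iff_even]
      tauto)
  rwa [Finset.card_powerset] at hle

end

end Pool.Agent.H23.CM
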