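import Pool.Agent.H23.CM.Defs
import Pool.Graph.R_pool_sql_team_seeded_620a6dc7.Results.MP_a2beea_nt.ConjugateExtensions

/-!
# Exceptional quadratic extensions and squares in the normal closure
-/

set_option autoImplicit false

open NumberField Module

namespace Pool.Agent.H23.CM

/-- The normal closure of `F` in the algebraic closure. -/
noncomputable abbrev Cl (F : Type) [Field F] [NumberField F] : IntermediateField ℚ (AlgebraicClosure F) :=
  IntermediateField.normalClosure ℚ F (AlgebraicClosure F)

instance (F : Type) [Field F] [NumberField F] : NumberField (Cl F) where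
  to_charZero := inferInstance
  to_finiteDimensional := inferInstance

/-- A quadratic extension is spanned by `1` and any element outside of the base field. -/
lemma quad_span {F E : Type} [Field F] [Field E] [Algebra F E] (h2 : finrank F E = 2) {b : E}
    (hb : ∀ x : F, algebraMap F E x ≠ b) (x : E) :
    ∃ u v : F, x = algebraMap F E u + algebraMap F E v * b := by
  have hfd : FiniteDimensional F E := FiniteDimensional.of_finrank_pos (by omega)
  have hli : LinearIndependent F ![(1 : E), b] := by
    rw [LinearIndependent.pair_iff]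
    intro s t hst
    have ht : t = 0 := by
      by_contra ht
      apply hb (-s / t)
      rw [Algebra.smul_def, Algebra.smul_def, mul_one] at hst
      have ht' : algebraMap F E t ≠ 0 := by
        rw [Ne, map_eq_zero_iff _ (algebraMap F E).injective]; exact ht
      rw [map_div₀, map_neg, div_eq_iff ht']
      linear_combination -hst
    subst ht
    rw [zero_smul, add_zero, Algebra.smul_def, mul_one] at hst
    exact ⟨(map_eq_zero_iff _ (algebraMap F E).injective).mp hst, rfl⟩
  let B := basisOfLinearIndependentOfCardEqFinrank hli (by rw [h2]; rfl)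
  refine ⟨B.repr x 0, B.repr x 1, ?_⟩
  have h3 := B.sum_repr x
  rw [Fin.sum_univ_two] at h3
  simp only [B, coe_basisOfLinearIndependentOfCardEqFinrank, Matrix.cons_val_zero,
    Matrix.cons_val_one] at h3
  rw [Algebra.smul_def, Algebra.smul_def, mul_one] at h3
  exact h3.symm

variable {F : Type} [Field F] [NumberField F] [IsTotallyReal F]

/-- **Exceptional quadratic extensions.** -/
lemma exists_closure {E : Type} [Field E] [NumberField E] [Algebra F E] (h2 : finrank F E = 2)
    (hE : ¬ ProductFormulas E) {a : F} {b : E} (hb : b ^ 2 = algebraMap F E a)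
    (hb' : ∀ x : F, algebraMap F E x ≠ b) :
    ∃ L : IntermediateField ℚ F, L ≠ ⊤ ∧ ∃ (M : Type) (_ : Field M) (_ : NumberField M)
      (_ : Algebra F M), IsGalois ℚ M ∧ discr M = discr (Cl F) ∧
      ∀ g : M ≃ₐ[ℚ] M, (∀ x : L, g (algebraMap F M x) = algebraMap F M x) →
        ∃ γ : M, algebraMap F M a * g (algebraMap F M a) = γ ^ 2 := by
  unfold ProductFormulas at hE
  push Not at hE
  obtain ⟨K, iK, iKn, iKg, iKc, ht, Z, h1, hav, Φ, hΦ, hbad⟩ := hE
  -- the base field as an intermediate field
  let e0 : F →ₐ[ℚ] E := IsScalarTower.toAlgHom ℚ F E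
  let F' : IntermediateField ℚ E := e0.fieldRange
  let e : F ≃ₐ[ℚ] F' := AlgEquiv.ofInjectiveField e0
  have he : ∀ x : F, ((e x : F') : E) = algebraMap F E x := fun x => rfl
  have hreal : IsTotallyReal F' := IsTotallyReal.ofRingEquiv e.toRingEquiv
  have hfr : finrank F' E = 2 := by
    rw [← h2]
    refine (Algebra.finrank_eq_of_equiv_equiv e.toRingEquiv (RingEquiv.refl E) ?_).symm
    ext x
    rfl
  rcases Pool.Agent.Results.MP_a2beea_nt.ConjugateExtensions.result K E F' hfr with hA | hB
  · exfalso
    obtain ⟨hA1, hA2, hA3⟩ := hA Φ hΦ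
    have key : ∀ f ∈ Pool.Agent.Results.MP_a2beea_nt.ConjugateExtensions.avgSpan K,
        ht f = Z f := by
      intro f hf
      refine Submodule.span_induction (p := fun f _ => ht f = Z f) ?_ ?_ ?_ ?_ hf
      · rintro x (hx | ⟨E', i1, i2, rfl⟩)
        · rw [Set.mem_singleton_iff.mp hx]; exact h1
        · exact hav E'
      · rw [map_zero, map_zero]
      · intro x y _ _ hx hy
        rw [map_add, map_add, hx, hy]
      · intro c x _ hx
        rw [map_smul, map_smul, hx]
    obtain ⟨Φ', hΦ', hne⟩ := hbad fun ψ => key _ (hA3 ψ)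
    exact hne (hA1 Φ' hΦ')
  · obtain ⟨L', hL', hB⟩ := hB
    -- an embedding of `E`
    have hne : Nonempty (E →ₐ[ℚ] K) := by
      by_contra hne
      rw [not_nonempty_iff] at hne
      obtain ⟨Φ', hΦ', hne'⟩ := hbad fun ψ => (hne.false ψ).elim
      apply hne'
      have : Φ' = Φ := by
        ext ψ
        exact (hne.false ψ).elim
      rw [this]
    obtain ⟨ψ⟩ := hne
    let σ : F →ₐ[ℚ] K := ψ.comp e0
    have hneF : Nonempty (F →ₐ[ℚ] K) := ⟨σ⟩
    let M : IntermediateField ℚ K := IntermediateField.normalClosure ℚ F K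
    have hM : Pool.Agent.Results.MP_a2beea_nt.ConjugateExtensions.conjugates F' K = M := by
      apply le_antisymm
      · refine iSup_le fun f => ?_
        rintro x ⟨y, rfl⟩
        have h3 : (f.comp (e : F →ₐ[ℚ] F')).fieldRange ≤ M :=
          AlgHom.fieldRange_le_normalClosure _
        refine h3 ⟨e.symm y, ?_⟩
        show f (e (e.symm y)) = f y
        rw [e.apply_symm_apply]
      · refine iSup_le fun f => ?_
        rintro x ⟨y, rfl⟩
        have h3 : (f.comp (e.symm : F' →ₐ[ℚ] F)).fieldRange ≤
            Pool.Agent.Results.MP_a2beea_nt.ConjugateExtensions.conjugates F' K :=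
          le_iSup (fun a : F' →ₐ[ℚ] K => a.fieldRange) _
        refine h3 ⟨e y, ?_⟩
        show f (e.symm (e y)) = f y
        rw [e.symm_apply_apply]
    let σM : F →ₐ[ℚ] M := σ.codRestrict M.toSubalgebra
      (fun x => AlgHom.fieldRange_le_normalClosure σ ⟨x, rfl⟩)
    have hclo : IsNormalClosure ℚ F M := isNormalClosure_normalClosure ℚ F K
    have hnF : Normal ℚ M := hclo.normal
    have hneC : Nonempty (F →ₐ[ℚ] AlgebraicClosure F) := ⟨IsScalarTower.toAlgHom ℚ F _⟩
    have hal : Algebra.IsAlgebraic ℚ F := inferInstance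
    have hcl : IsAlgClosure ℚ (AlgebraicClosure F) :=
      ⟨inferInstance, Algebra.IsAlgebraic.trans ℚ F (AlgebraicClosure F)⟩
    have hnC : Normal ℚ (AlgebraicClosure F) := IsAlgClosure.normal ℚ (AlgebraicClosure F)
    have hcloC : IsNormalClosure ℚ F (Cl F) := isNormalClosure_normalClosure ℚ F _
    let L : IntermediateField ℚ F := L'.comap (e : F →ₐ[ℚ] F')
    have hLtop : L ≠ ⊤ := by
      intro h
      apply hL'
      rw [eq_top_iff]
      intro x _
      have h3 : e.symm x ∈ L := by rw [h]; trivial
      have h4 : e (e.symm x) ∈ L' := h3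
      rwa [e.apply_symm_apply] at h4
    refine ⟨L, hLtop, M, inferInstance, inferInstance, σM.toRingHom.toAlgebra, ?_, ?_, ?_⟩
    · exact { }
    · exact discr_eq_discr_of_algEquiv M (IsNormalClosure.equiv (F := ℚ) (K := F))
    · intro g hg
      have hg1 : ∀ x : L, g (σM x) = σM x := hg
      let g' : K ≃ₐ[ℚ] K := g.liftNormal K
      have hg' : ∀ x : M, g' (x : K) = ((g x : M) : K) := fun x => g.liftNormal_commutes K x
      let φ : E →ₐ[ℚ] K := (g' : K →ₐ[ℚ] K).comp ψ
      have hσ : ∀ x : F, ((σM x : M) : K) = ψ (algebraMap F E x) := fun x => rfl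
      have hφF : ∀ x : F, φ (algebraMap F E x) = ((g (σM x) : M) : K) := fun x => by
        rw [← hg', hσ]; rfl
      have hagree : ∀ x ∈ L', ψ x = φ x := by
        intro x hx
        have h3 : e.symm x ∈ L := by
          show e (e.symm x) ∈ L'
          rwa [e.apply_symm_apply]
        have h4 : ((x : F') : E) = algebraMap F E (e.symm x) := by
          rw [← he, e.apply_symm_apply]
        show ψ ((x : F') : E) = φ ((x : F') : E)
        rw [h4, hφF, hg1 ⟨_, h3⟩]
        rfl
      have hsup := hB ψ φ hagree
      rw [hM] at hsup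
      have hψb : (ψ b) ^ 2 = ((σM a : M) : K) := by rw [← map_pow, hb, hσ]
      have hφb : (φ b) ^ 2 = ((g (σM a) : M) : K) := by rw [← map_pow, hb, hφF]
      have hmem : ψ b * φ b ∈ M := by
        rw [← IsGalois.fixedField_fixingSubgroup M, IntermediateField.mem_fixedField_iff]
        intro h hh
        have hhM : ∀ x : M, h (x : K) = (x : K) := fun x =>
          (IntermediateField.mem_fixingSubgroup_iff M h).mp hh x x.2
        have key : ∀ θ : E →ₐ[ℚ] K, (∀ x : F, θ (algebraMap F E x) ∈ M) → h (θ b) = θ b →
            h ∈ (θ.fieldRange ⊔ M).fixingSubgroup := by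
          intro θ hθ hθb
          rw [IntermediateField.fixingSubgroup_sup]
          refine Subgroup.mem_inf.mpr ⟨?_, hh⟩
          rw [IntermediateField.mem_fixingSubgroup_iff]
          rintro _ ⟨x, rfl⟩
          obtain ⟨u, v, rfl⟩ := quad_span h2 hb' x
          have e1 := hhM ⟨_, hθ u⟩
          have e2 := hhM ⟨_, hθ v⟩
          show h (θ (algebraMap F E u + algebraMap F E v * b)) =
            θ (algebraMap F E u + algebraMap F E v * b)
          rw [map_add, map_mul, map_add, map_mul, hθb]
          simp only at e1 e2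
          rw [e1, e2]
        have key2 : ∀ θ : E →ₐ[ℚ] K, h ∈ (θ.fieldRange ⊔ M).fixingSubgroup → h (θ b) = θ b := by
          intro θ hθ
          rw [IntermediateField.mem_fixingSubgroup_iff] at hθ
          exact hθ _ (le_sup_left (a := θ.fieldRange) ⟨b, rfl⟩)
        have s1 : h (ψ b) = ψ b ∨ h (ψ b) = -ψ b := by
          apply sq_eq_sq_iff_eq_or_eq_neg.mp
          rw [← map_pow, hψb, hhM]
        have s2 : h (φ b) = φ b ∨ h (φ b) = -φ b := by
          apply sq_eq_sq_iff_eq_or_eq_neg.mp
          rw [← map_pow, hφb, hhM]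
        have hψM : ∀ x : F, ψ (algebraMap F E x) ∈ M := fun x => (σM x).2
        have hφM : ∀ x : F, φ (algebraMap F E x) ∈ M := fun x => by
          rw [hφF]; exact (g (σM x)).2
        rw [map_mul]
        rcases s1 with s1 | s1
        · have h3 := key ψ hψM s1
          rw [hsup] at h3
          rw [s1, key2 φ h3]
        · rcases s2 with s2 | s2
          · have h3 := key φ hφM s2
            rw [← hsup] at h3
            rw [s2, key2 ψ h3]
          · rw [s1, s2]; ring
      refine ⟨⟨ψ b * φ b, hmem⟩, ?_⟩
      apply Subtype.ext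
      show ((σM a : M) : K) * ((g (σM a) : M) : K) = (ψ b * φ b) ^ 2
      rw [mul_pow, hψb, hφb]

end Pool.Agent.H23.CM
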