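import Pool.Agent.H23.CM.Val

/-!
# Parities of valuations at conjugate primes
-/

set_option autoImplicit false

open NumberField Ideal
open scoped Pointwise

namespace Pool.Agent.H23.CM

section smul

variable {M : Type*} [Field M] [NumberField M] {G : Type*} [Group G] [MulSemiringAction G M]

lemma vl_smul (g : G) (P : Ideal (𝓞 M)) (x : 𝓞 M) : vl (g • P) (g • x) = vl P x := by
  unfold vl
  have h1 : Ideal.span {g • x} = g • Ideal.span {x} := by
    rw [Ideal.pointwise_smul_def, Ideal.map_span, Set.image_singleton]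
    rfl
  have key : ∀ (h : G) (I J : Ideal (𝓞 M)), I ∣ J → h • I ∣ h • J := by
    intro h I J hIJ
    obtain ⟨K, rfl⟩ := hIJ
    refine ⟨h • K, ?_⟩
    rw [Ideal.pointwise_smul_def, Ideal.pointwise_smul_def, Ideal.pointwise_smul_def, Ideal.map_mul]
  have hpow : ∀ (h : G) (I : Ideal (𝓞 M)) (n : ℕ), h • (I ^ n) = (h • I) ^ n := by
    intro h I n
    rw [Ideal.pointwise_smul_def, Ideal.pointwise_smul_def, Ideal.map_pow]
  rw [h1]
  have hem : emultiplicity (g • P) (g • Ideal.span {x}) = emultiplicity P (Ideal.span {x}) := by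
    rw [emultiplicity_eq_emultiplicity_iff]
    intro n
    constructor
    · intro h
      have := key g⁻¹ _ _ h
      rwa [hpow, inv_smul_smul, inv_smul_smul] at this
    · intro h
      rw [← hpow]
      exact key g _ _ h
  unfold multiplicity
  rw [hem]

end smul

variable {F M : Type*} [Field F] [NumberField F] [Field M] [NumberField M] [Algebra F M]
  [IsGalois ℚ M]

/-- **Parities at primes over the same prime of a subfield.** -/
lemma parity (L : IntermediateField ℚ F) {a : 𝓞 F} (ha : a ≠ 0)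
    (hsq : ∀ g : M ≃ₐ[ℚ] M, (∀ x : L, g (algebraMap F M x) = algebraMap F M x) →
      ∃ γ : M, algebraMap F M a * g (algebraMap F M a) = γ ^ 2)
    {p p' : Ideal (𝓞 F)} [hp : p.IsPrime] [hp' : p'.IsPrime] (h0 : p ≠ ⊥) (h0' : p' ≠ ⊥)
    (hq : p.under (𝓞 L) = p'.under (𝓞 L))
    (hunr : ∀ Q : Ideal (𝓞 M), Q.IsPrime → Q.LiesOver p → ramificationIdx' p Q = 1)
    (hunr' : ∀ Q : Ideal (𝓞 M), Q.IsPrime → Q.LiesOver p' → ramificationIdx' p' Q = 1) :
    Odd (vl p a) ↔ Odd (vl p' a) := by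
  have hGal : IsGalois L M := IsGalois.tower_top_of_isGalois ℚ L M
  obtain ⟨⟨Q, hQp, hQ⟩⟩ := (inferInstance : Nonempty (p.primesOver (𝓞 M)))
  obtain ⟨⟨Q', hQp', hQ'⟩⟩ := (inferInstance : Nonempty (p'.primesOver (𝓞 M)))
  have hQ0 : Q ≠ ⊥ := Ideal.ne_bot_of_liesOver_of_ne_bot h0 Q
  have hQ0' : Q' ≠ ⊥ := Ideal.ne_bot_of_liesOver_of_ne_bot h0' Q'
  set q := p.under (𝓞 L) with hqdef
  have hpq : p.LiesOver q := ⟨rfl⟩
  have hpq' : p'.LiesOver q := ⟨hq⟩
  have hQq : Q.LiesOver q := Ideal.LiesOver.trans Q p q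
  have hQq' : Q'.LiesOver q := Ideal.LiesOver.trans Q' p' q
  obtain ⟨g, hg⟩ := exists_smul_eq_of_isGaloisGroup q Q' Q (M ≃ₐ[L] M)
  -- `g • Q' = Q`
  have hinj : Function.Injective (algebraMap (𝓞 F) (𝓞 M)) :=
    FaithfulSMul.algebraMap_injective _ _
  set α : 𝓞 M := algebraMap (𝓞 F) (𝓞 M) a with hα
  have hα0 : α ≠ 0 := by
    rw [hα, Ne, map_eq_zero_iff _ hinj]; exact ha
  obtain ⟨γ, hγ⟩ := hsq (g.restrictScalars ℚ) (fun x => by
    have := g.commutes x
    exact this)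
  have hαM : ((α : 𝓞 M) : M) = algebraMap F M a := rfl
  have hgα : (((g • α : 𝓞 M)) : M) = g (algebraMap F M a) := rfl
  have hγint : IsIntegral ℤ γ := by
    have h1 : IsIntegral ℤ (γ ^ 2) := by
      rw [← hγ]
      have h2 : IsIntegral ℤ (((α * (g • α) : 𝓞 M)) : M) := (α * (g • α)).isIntegral_coe
      exact h2
    exact IsIntegral.of_pow (by norm_num) h1
  set c : 𝓞 M := ⟨γ, hγint⟩ with hc
  have hprod : α * (g • α) = c ^ 2 := by
    apply RingOfIntegers.ext
    exact hγ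
  have hgα0 : g • α ≠ 0 := by
    intro h
    apply hα0
    have := congrArg (fun z => g⁻¹ • z) h
    simpa using this
  have hc0 : c ≠ 0 := by
    intro h
    rw [h] at hprod
    simp only [ne_eq, OfNat.ofNat_ne_zero, not_false_eq_true, zero_pow, mul_eq_zero] at hprod
    rcases hprod with h | h
    · exact hα0 h
    · exact hgα0 h
  have h1 : vl Q α + vl Q (g • α) = 2 * vl Q c := by
    rw [← vl_mul hQ0 hα0 hgα0, hprod, vl_sq hQ0 hc0]
  have h2 : vl Q (g • α) = vl Q' α := by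
    rw [← hg]; exact vl_smul g Q' α
  have h3 : vl Q α = vl p a := by
    rw [hα, vl_map h0 hQ0 ha, hunr Q hQp hQ, one_mul]
  have h4 : vl Q' α = vl p' a := by
    rw [hα, vl_map h0' hQ0' ha, hunr' Q' hQp' hQ', one_mul]
  rw [h2, h3, h4] at h1
  rw [Nat.odd_iff, Nat.odd_iff]
  omega

end Pool.Agent.H23.CM
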