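import Pool.Agent.H23.CM.Trans

/-!
# Primes which do not divide the discriminant
-/

set_option autoImplicit false

open NumberField Ideal

namespace Pool.Agent.H23.CM

section one

variable {M : Type*} [Field M] [NumberField M]

/-- Primes which do not contain the discriminant are unramified over the rational primes. -/
lemma ram_one {Q : Ideal (𝓞 M)} [hQ : Q.IsPrime] (hQ0 : Q ≠ ⊥)
    (hD : ((discr M : ℤ) : 𝓞 M) ∉ Q) : ramificationIdx' (Q.under ℤ) Q = 1 := by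
  have hlies : Q.LiesOver (Q.under ℤ) := ⟨rfl⟩
  have hq0 : Q.under ℤ ≠ ⊥ := mt Ideal.eq_bot_of_comap_eq_bot hQ0
  have hnd : ¬ Q ∣ differentIdeal ℤ (𝓞 M) := by
    intro h
    rw [Ideal.dvd_iff_le] at h
    exact hD (h (discr_mem_differentIdeal M (𝓞 M)))
  have he0 : ramificationIdx' (Q.under ℤ) Q ≠ 0 :=
    Ideal.IsDedekindDomain.ramificationIdx'_ne_zero_of_liesOver Q hq0
  by_contra h1
  have h2 : 2 ≤ ramificationIdx' (Q.under ℤ) Q := by omega
  have h3 : Q ^ 2 ∣ (Q.under ℤ).map (algebraMap ℤ (𝓞 M)) := by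
    rw [Ideal.dvd_iff_le]
    exact le_pow_of_le_ramificationIdx' h2
  have : (Q.under ℤ).IsMaximal := (inferInstance : (Q.under ℤ).IsPrime).isMaximal hq0
  have h4 := pow_sub_one_dvd_differentIdeal ℤ (p := Q.under ℤ) Q 2 hq0 h3
  exact hnd (by simpa using h4)

end one

section two

variable {F M : Type*} [Field F] [NumberField F] [Field M] [NumberField M] [Algebra F M]

omit [NumberField F] [NumberField M] in
lemma notMem_above {D : ℤ} {p : Ideal (𝓞 F)} (hD : ((D : ℤ) : 𝓞 F) ∉ p) {Q : Ideal (𝓞 M)}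
    [Q.LiesOver p] : ((D : ℤ) : 𝓞 M) ∉ Q := by
  intro h
  apply hD
  rw [Ideal.mem_of_liesOver Q p, map_intCast]
  exact h

lemma unr {p : Ideal (𝓞 F)} [hp : p.IsPrime] (h0 : p ≠ ⊥) (hD : ((discr M : ℤ) : 𝓞 F) ∉ p)
    (Q : Ideal (𝓞 M)) (hQ : Q.IsPrime) (hQp : Q.LiesOver p) :
    ramificationIdx' (Q.under ℤ) p = 1 ∧ ramificationIdx' p Q = 1 := by
  have hQ0 : Q ≠ ⊥ := Ideal.ne_bot_of_liesOver_of_ne_bot h0 Q
  have h1 := ram_one hQ0 (notMem_above (M := M) hD (Q := Q))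
  have hlp : p.LiesOver (Q.under ℤ) := by
    refine ⟨?_⟩
    rw [hQp.over, Ideal.under_under]
  have h2 := ramificationIdx'_algebra_tower' (Q.under ℤ) p Q
  rw [h1] at h2
  have h3 := Nat.eq_one_of_mul_eq_one_right h2.symm
  have h4 := Nat.eq_one_of_mul_eq_one_left h2.symm
  exact ⟨h3, h4⟩

/-- The primes of `F` not containing the discriminant of `M` are unramified over the subfields. -/
lemma unr_sub (L : IntermediateField ℚ F) {p : Ideal (𝓞 F)} [hp : p.IsPrime] (h0 : p ≠ ⊥)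
    (hD : ((discr M : ℤ) : 𝓞 F) ∉ p) : ramificationIdx' (p.under (𝓞 L)) p = 1 := by
  obtain ⟨⟨Q, hQ, hQp⟩⟩ := (inferInstance : Nonempty (p.primesOver (𝓞 M)))
  obtain ⟨h1, -⟩ := unr h0 hD Q hQ hQp
  have hlp : p.LiesOver (p.under (𝓞 L)) := ⟨rfl⟩
  have hlq : (p.under (𝓞 L)).LiesOver (Q.under ℤ) := by
    refine ⟨?_⟩
    rw [hQp.over, Ideal.under_under, Ideal.under_under]
  have h2 := ramificationIdx'_algebra_tower' (Q.under ℤ) (p.under (𝓞 L)) p
  rw [h1] at h2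
  exact Nat.eq_one_of_mul_eq_one_left h2.symm

end two

end Pool.Agent.H23.CM
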