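import Mathlib

/-!
# Parities of valuations in extensions of number fields
-/

set_option autoImplicit false

open NumberField Ideal

namespace Pool.Agent.H23.CM

/-- The valuation of `a` at the prime ideal `p`. -/
noncomputable def vl {R : Type*} [CommRing R] (p : Ideal R) (a : R) : ℕ :=
  multiplicity p (Ideal.span {a})

section basic

variable {R : Type*} [CommRing R] [IsDedekindDomain R]

lemma prime_of {p : Ideal R} [hp : p.IsPrime] (h0 : p ≠ ⊥) : Prime p :=
  Ideal.prime_of_isPrime h0 hp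

lemma fin_mult {p : Ideal R} [hp : p.IsPrime] (h0 : p ≠ ⊥) {I : Ideal R} (hI : I ≠ ⊥) :
    FiniteMultiplicity p I :=
  FiniteMultiplicity.of_prime_left (prime_of h0) (by simpa using hI)

omit [IsDedekindDomain R] in
lemma span_ne {a : R} (ha : a ≠ 0) : Ideal.span {a} ≠ ⊥ := by
  simpa [Ideal.span_singleton_eq_bot] using ha

lemma vl_mul {p : Ideal R} [hp : p.IsPrime] (h0 : p ≠ ⊥) {a b : R} (ha : a ≠ 0) (hb : b ≠ 0) :
    vl p (a * b) = vl p a + vl p b := by
  unfold vl
  rw [← Ideal.span_singleton_mul_span_singleton]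
  exact multiplicity_mul (prime_of h0)
    (by
      rw [Ideal.span_singleton_mul_span_singleton]
      exact fin_mult h0 (span_ne (mul_ne_zero ha hb)))

lemma vl_sq {p : Ideal R} [hp : p.IsPrime] (h0 : p ≠ ⊥) {a : R} (ha : a ≠ 0) :
    vl p (a ^ 2) = 2 * vl p a := by
  rw [sq, vl_mul h0 ha ha]; ring

lemma emult_eq {p : Ideal R} [hp : p.IsPrime] (h0 : p ≠ ⊥) {a : R} (ha : a ≠ 0) :
    emultiplicity p (Ideal.span {a}) = (vl p a : ℕ∞) :=
  (fin_mult h0 (span_ne ha)).emultiplicity_eq_multiplicity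

end basic

section ext

variable {R S : Type*} [CommRing R] [IsDedekindDomain R] [CommRing S] [IsDedekindDomain S]
  [Algebra R S] [FaithfulSMul R S]

/-- Valuations in extensions. -/
lemma vl_map {p : Ideal R} [hp : p.IsPrime] (h0 : p ≠ ⊥) {P : Ideal S} [hP : P.IsPrime]
    (hP0 : P ≠ ⊥) [P.LiesOver p] {a : R} (ha : a ≠ 0) :
    vl P (algebraMap R S a) = ramificationIdx' p P * vl p a := by
  have hinj : Function.Injective (algebraMap R S) := FaithfulSMul.algebraMap_injective R S
  have ha' : algebraMap R S a ≠ 0 := by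
    rw [Ne, map_eq_zero_iff _ hinj]; exact ha
  have h := Ideal.IsDedekindDomain.emultiplicity_map_eq_ramificationIdx'_mul (S := S)
    (I := Ideal.span {a}) (span_ne ha) (prime_of h0).irreducible (prime_of hP0).irreducible hP0
  rw [Ideal.map_span, Set.image_singleton, emult_eq hP0 ha', emult_eq h0 ha] at h
  exact_mod_cast h

end ext

section ram

variable {F E : Type*} [Field F] [NumberField F] [Field E] [NumberField E] [Algebra F E]

/-- A prime ideal at which a generator of a quadratic extension has odd valuation is ramified. -/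
lemma dvd_different {a : 𝓞 F} (ha : a ≠ 0) {b : 𝓞 E} (hb : b ^ 2 = algebraMap (𝓞 F) (𝓞 E) a)
    {p : Ideal (𝓞 F)} [hp : p.IsPrime] (h0 : p ≠ ⊥) (hodd : Odd (vl p a))
    {P : Ideal (𝓞 E)} [hP : P.IsPrime] [P.LiesOver p] :
    P ∣ differentIdeal (𝓞 F) (𝓞 E) := by
  have hP0 : P ≠ ⊥ := Ideal.ne_bot_of_liesOver_of_ne_bot h0 P
  have hb0 : b ≠ 0 := by
    rintro rfl
    have h1 : algebraMap (𝓞 F) (𝓞 E) a = 0 := by rw [← hb]; simp
    exact ha ((map_eq_zero_iff _ (FaithfulSMul.algebraMap_injective (𝓞 F) (𝓞 E))).mp h1)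
  have h1 := vl_map (S := 𝓞 E) h0 hP0 ha
  rw [← hb, vl_sq hP0 hb0] at h1
  set e := ramificationIdx' p P with he
  have he2 : 2 ∣ e := by
    have : Even (e * vl p a) := ⟨vl P b, by rw [← h1]; ring⟩
    rw [Nat.even_mul] at this
    rcases this with h | h
    · exact h.two_dvd
    · exact absurd hodd (Nat.not_odd_iff_even.mpr h)
  have he0 : e ≠ 0 := by
    rw [he]
    exact Ideal.IsDedekindDomain.ramificationIdx'_ne_zero_of_liesOver P h0
  have h2 : 2 ≤ e := Nat.le_of_dvd (Nat.pos_of_ne_zero he0) he2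
  have h3 : P ^ 2 ∣ p.map (algebraMap (𝓞 F) (𝓞 E)) := by
    rw [Ideal.dvd_iff_le]
    exact le_pow_of_le_ramificationIdx' h2
  have : p.IsMaximal := hp.isMaximal h0
  have h4 := pow_sub_one_dvd_differentIdeal (𝓞 F) (p := p) P 2 h0 h3
  simpa using h4

/-- The norm of a prime ideal is at most the norm of a prime ideal above it. -/
lemma absNorm_le {p : Ideal (𝓞 F)} (h0 : p ≠ ⊥)
    {P : Ideal (𝓞 E)} (hP0 : P ≠ ⊥) [P.LiesOver p] :
    absNorm p ≤ absNorm P := by
  have h1 : Finite (𝓞 E ⧸ P) := Ideal.finiteQuotientOfFreeOfNeBot P hP0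
  rw [absNorm_apply, absNorm_apply, Submodule.cardQuot_apply, Submodule.cardQuot_apply]
  refine Nat.card_le_card_of_injective (algebraMap (𝓞 F ⧸ p) (𝓞 E ⧸ P)) ?_
  exact FaithfulSMul.algebraMap_injective _ _

end ram

end Pool.Agent.H23.CM
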